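import Mathlib
import Pool.Agent.H977R3.CM.Aut

/-!
# Fixed algebraic numbers
-/

set_option autoImplicit false

namespace Pool.Agent.K3h98.KT

open Pool.Agent.H977R3.CM

theorem exists_preimage {A : Type*} [Field A] [Algebra ℚ A] [IsAlgClosed A] (j : A →ₐ[ℚ] ℂ) (x : ℂ)
    (hx : IsAlgebraic ℚ x) : ∃ a, j a = x := by
  have h0 : minpoly ℚ x ≠ 0 := minpoly.ne_zero hx.isIntegral
  have hs : ((minpoly ℚ x).map (algebraMap ℚ A)).Splits := IsAlgClosed.splits _
  have h1 : x ∈ (minpoly ℚ x).rootSet ℂ := by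
    rw [Polynomial.mem_rootSet]
    exact ⟨h0, minpoly.aeval ℚ x⟩
  have h2 : (minpoly ℚ x).rootSet ℂ = j '' (minpoly ℚ x).rootSet A := by
    rw [Polynomial.Splits.image_rootSet hs j]
  rw [h2] at h1
  obtain ⟨a, _, ha⟩ := h1
  exact ⟨a, ha⟩

/-- An algebraic number that is fixed by all automorphisms fixing a set of algebraic numbers is in the
field generated by this set. -/
theorem mem_closure (T : Set ℂ) (hT : ∀ t ∈ T, IsAlgebraic ℚ t) (x : ℂ) (hx : IsAlgebraic ℚ x)
    (h : ∀ g : ℂ ≃+* ℂ, (∀ t ∈ T, g t = t) → g x = x) : x ∈ Subfield.closure T := by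
  have _ : Algebra.IsAlgebraic ℚ (AlgebraicClosure ℚ) := AlgebraicClosure.isAlgebraic ℚ
  have _ : IsAlgClosure ℚ (AlgebraicClosure ℚ) := ⟨inferInstance, inferInstance⟩
  have _ : IsGalois ℚ (AlgebraicClosure ℚ) := IsAlgClosure.isGalois ℚ (AlgebraicClosure ℚ)
  let j : (AlgebraicClosure ℚ) →ₐ[ℚ] ℂ := IsAlgClosed.lift
  obtain ⟨a, ha⟩ := exists_preimage j x hx
  let K : IntermediateField ℚ (AlgebraicClosure ℚ) := IntermediateField.adjoin ℚ (j ⁻¹' T)
  have h1 : a ∈ K := by
    rw [← InfiniteGalois.fixedField_fixingSubgroup K]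
    rw [IntermediateField.mem_fixedField_iff]
    intro σ hσ
    rw [IntermediateField.mem_fixingSubgroup_iff] at hσ
    obtain ⟨g, hg⟩ := exists_aut (j : (AlgebraicClosure ℚ) →+* ℂ)
      (σ : (AlgebraicClosure ℚ) ≃+* (AlgebraicClosure ℚ))
    have h2 : ∀ t ∈ T, g t = t := by
      intro t ht
      obtain ⟨b, hb⟩ := exists_preimage j t (hT t ht)
      have h3 : σ b = b := hσ b (IntermediateField.subset_adjoin ℚ _ (by
        change j b ∈ T
        rw [hb]
        exact ht))
      rw [← hb]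
      have h4 := hg b
      change g (j b) = j (σ b) at h4
      rw [h4, h3]
    have h3 := h g h2
    rw [← ha] at h3
    have h4 := hg a
    change g (j a) = j (σ a) at h4
    rw [h4] at h3
    exact j.injective h3
  let M : IntermediateField ℚ (AlgebraicClosure ℚ) :=
    ((Subfield.closure T).comap (j : (AlgebraicClosure ℚ) →+* ℂ)).toIntermediateField (fun r => by
      change j (algebraMap ℚ _ r) ∈ Subfield.closure T
      rw [AlgHom.commutes, eq_ratCast]
      exact SubfieldClass.ratCast_mem _ r)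
  have h2 : K ≤ M := by
    refine IntermediateField.adjoin_le_iff.2 fun b hb => ?_
    change j b ∈ Subfield.closure T
    exact Subfield.subset_closure hb
  have h3 : j a ∈ Subfield.closure T := h2 h1
  rwa [ha] at h3

end Pool.Agent.K3h98.KT
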