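import Pool.Agent.K3h98.KT.Defs
import Pool.Agent.K3h98.TW.Main
import Pool.Agent.K3h98.KT.Fld
import Pool.Agent.TH117.BL.Main

/-!
# Relations between the Frobenius eigenvalues and slope fields
-/

set_option autoImplicit false

namespace Pool.Agent.K3h98.KT

open NumberField Module Pool.Agent.H204R3.CM Pool.Agent.W547.KB Pool.Agent.W495.TA
  Pool.Agent.TH117.BL Pool.Agent.K3h98.TW Pool.Agent.K3h98.IT Pool.Agent.H977R3.CM

/-- The automorphisms of the field of complex numbers permute the embeddings of a number field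
transitively. -/
theorem exists_comp {E : Type} [Field E] [NumberField E] (φ ψ : E →+* ℂ) :
    ∃ g : ℂ ≃+* ℂ, (g : ℂ →+* ℂ).comp φ = ψ := by
  obtain ⟨L, _, _, j, hj⟩ := one_galois E
  obtain ⟨φ₁, hφ₁⟩ := hj φ
  obtain ⟨ψ₁, hψ₁⟩ := hj ψ
  let _ : Algebra E L := φ₁.toAlgebra
  have _ : IsScalarTower ℚ E L := IsScalarTower.of_algebraMap_eq fun x => by
    rw [eq_ratCast, eq_ratCast]
    exact (map_ratCast φ₁ x).symm
  let χ : E →ₐ[ℚ] L := RingHom.equivRatAlgHom E L ψ₁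
  let σ : L →ₐ[ℚ] L := χ.liftNormal L
  have hσ : ∀ x, σ (φ₁ x) = ψ₁ x := fun x => AlgHom.liftNormal_commutes χ L x
  obtain ⟨g, hg⟩ := exists_aut j ((AlgEquiv.ofBijective σ (AlgHom.normal_bijective ℚ L L σ) :
    L ≃ₐ[ℚ] L) : L ≃+* L)
  refine ⟨g, ?_⟩
  ext x
  rw [← hφ₁, ← hψ₁]
  change g (j (φ₁ x)) = j (ψ₁ x)
  rw [hg]
  exact congrArg j (hσ x)

variable {p : ℕ} [Fact p.Prime] {ν : PadicAlgCl p ≃+* ℂ}

section basic

variable (Z : RedAV p ν)

/-- twice the slope minus one, up to a factor -/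
noncomputable def sl (w : Emb Z) : ℝ :=
  2 * Real.log ‖ν.symm (eig Z w)‖ - Real.log ‖(p : PadicAlgCl p) ^ Z.a‖

theorem normp_ne : ‖(p : PadicAlgCl p) ^ Z.a‖ ≠ 0 := by
  rw [norm_ne_zero_iff]
  intro h
  have h1 := congrArg ν h
  rw [map_pow, map_natCast, map_zero] at h1
  exact p_ne Z h1

theorem symm_p : ν.symm ((p : ℂ) ^ Z.a) = (p : PadicAlgCl p) ^ Z.a := by
  rw [map_pow, map_natCast]

theorem norm_ev_ne (w : Emb Z) : ‖ν.symm (eig Z w)‖ ≠ 0 := by
  rw [norm_ne_zero_iff]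
  intro h
  exact eig_ne Z w ((map_eq_zero_iff ν.symm ν.symm.injective).1 h)

theorem sl_cj (w : Emb Z) : sl Z (cj Z w) = -sl Z w := by
  have h1 : ν.symm (eig Z w) * ν.symm (eig Z (cj Z w)) = (p : PadicAlgCl p) ^ Z.a := by
    rw [← map_mul, eig_cj, symm_p]
  have h2 := congrArg (fun t => Real.log ‖t‖) h1
  simp only [norm_mul] at h2
  rw [Real.log_mul (norm_ev_ne Z w) (norm_ev_ne Z (cj Z w))] at h2
  unfold sl
  linarith

theorem logq_neg : Real.log ‖(p : PadicAlgCl p) ^ Z.a‖ < 0 := by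
  have hp0 : Real.log ‖(p : PadicAlgCl p)‖ < 0 := Real.log_neg norm_p_pos norm_p_lt
  have ha : (0 : ℝ) < (Z.a : ℝ) := by exact_mod_cast Z.pos
  rw [norm_pow, Real.log_pow]
  exact mul_neg_of_pos_of_neg ha hp0

theorem sl_eq (w : Emb Z) :
    sl Z w = 2 * Real.log ‖(p : PadicAlgCl p) ^ Z.a‖ * (slope Z w.1 w.2 - 1 / 2) := by
  have h1 := (logq_neg Z).ne
  have h2 : Real.log ‖ν.symm (eig Z w)‖ = Real.log ‖(p : PadicAlgCl p) ^ Z.a‖ *
      slope Z w.1 w.2 := by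
    unfold slope
    rw [mul_div_cancel₀ _ h1]
    rfl
  unfold sl
  rw [h2]
  ring

theorem half_iff (i : Z.X.I) (φ : (Z.X.factor i).E →+* ℂ) :
    slope Z i φ = 1 / 2 ↔ sl Z ⟨i, φ⟩ = 0 := by
  rw [sl_eq, mul_eq_zero, sub_eq_zero]
  constructor
  · intro h
    exact Or.inr h
  · rintro (h | h)
    · exact absurd h (mul_ne_zero two_ne_zero (logq_neg Z).ne)
    · exact h

/-- the homomorphism given by the valuation and an automorphism -/
noncomputable def lam (ν : PadicAlgCl p ≃+* ℂ) (g : ℂ ≃+* ℂ) : Additive ℂˣ →+ ℝ where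
  toFun u := Real.log ‖ν.symm (g ((Additive.toMul u : ℂˣ) : ℂ))‖
  map_zero' := by simp
  map_add' u v := by
    have h : ∀ u : Additive ℂˣ, ‖ν.symm (g ((Additive.toMul u : ℂˣ) : ℂ))‖ ≠ 0 := by
      intro u
      rw [norm_ne_zero_iff]
      intro h
      have h1 := (map_eq_zero_iff ν.symm ν.symm.injective).1 h
      exact (Additive.toMul u).ne_zero ((map_eq_zero_iff g g.injective).1 h1)
    rw [toMul_add, Units.val_mul, map_mul, map_mul, norm_mul, Real.log_mul (h u) (h v)]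

theorem lam_hh (g : ℂ ≃+* ℂ) (w : Emb Z) : lam ν g (hh Z w) = sl Z (ga Z g w) := by
  unfold hh
  rw [map_sub, map_nsmul]
  unfold sl
  congr 1
  · rw [nsmul_eq_mul]
    rfl
  · change Real.log ‖ν.symm (g ((p : ℂ) ^ Z.a))‖ = _
    rw [map_pow, map_natCast, symm_p]

/-- The relation between the slopes. -/
theorem rel_sl (n : Emb Z → ℤ) (hn : n ∈ RelZ Z) (g : ℂ ≃+* ℂ) :
    ∑ w, (n (ga Z g w) : ℝ) * sl Z w = 0 := by
  have key : ∀ n ∈ RelZ Z, ∀ g : ℂ ≃+* ℂ, ∑ w, (n w : ℝ) * sl Z (ga Z g w) = 0 := by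
    intro n hn g
    obtain ⟨s, hs, h⟩ := hn
    have h1 := congrArg (lam ν g) h
    rw [map_nsmul, map_zero, map_sum] at h1
    have h2 : ∀ w, lam ν g (n w • hh Z w) = (n w : ℝ) * sl Z (ga Z g w) := by
      intro w
      rw [map_zsmul, lam_hh, zsmul_eq_mul]
    rw [Finset.sum_congr rfl fun w _ => h2 w, nsmul_eq_mul] at h1
    rcases mul_eq_zero.1 h1 with h3 | h3
    · exact absurd (Nat.cast_eq_zero.1 h3) hs.ne'
    · exact h3
  have h1 := key n hn g.symm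
  let e : Emb Z ≃ Emb Z := ⟨ga Z g, ga Z g.symm, fun w => ga_symm Z g.symm w, ga_symm Z g⟩
  rw [← Equiv.sum_comp e] at h1
  rw [← h1]
  refine Finset.sum_congr rfl fun w _ => ?_
  change _ = (n (ga Z g w) : ℝ) * sl Z (ga Z g.symm (ga Z g w))
  congr 2
  exact (ga_symm Z g.symm w).symm

theorem ga_mul (g h : ℂ ≃+* ℂ) (w : Emb Z) : ga Z (g * h) w = ga Z g (ga Z h w) := rfl

/-- The relations between the eigenvalues of a factor of K3 type. -/
theorem symm_of_k3 (i : Z.X.I) (φ₀ : (Z.X.factor i).E →+* ℂ) (hk : IsK3Type Z i φ₀)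
    (n : Emb Z → ℤ) (hn : n ∈ RelZ Z) (hF : ∀ w, w.1 ≠ i → n w = 0) :
    ∀ φ, n ⟨i, ComplexEmbedding.conjugate φ⟩ = n ⟨i, φ⟩ := by
  classical
  set s := sl Z ⟨i, φ₀⟩ with hs
  have hs0 : s ≠ 0 := fun h => hk.1 ((half_iff Z i φ₀).2 h)
  have hs1 : sl Z ⟨i, ComplexEmbedding.conjugate φ₀⟩ = -s := sl_cj Z ⟨i, φ₀⟩
  intro φ
  obtain ⟨τ, hτ⟩ := exists_comp φ₀ φ
  have h1 := rel_sl Z n hn τ
  rw [Fintype.sum_sigma, Finset.sum_eq_single i] at h1
  · rw [Fintype.sum_eq_add φ₀ (ComplexEmbedding.conjugate φ₀)] at h1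
    · rw [hs1, ← hs] at h1
      change (n ⟨i, (τ : ℂ →+* ℂ).comp φ₀⟩ : ℝ) * s +
        (n ⟨i, (τ : ℂ →+* ℂ).comp (ComplexEmbedding.conjugate φ₀)⟩ : ℝ) * (-s) = 0 at h1
      rw [← conj_comp, hτ] at h1
      have h2 : s * ((n ⟨i, φ⟩ : ℝ) - (n ⟨i, ComplexEmbedding.conjugate φ⟩ : ℝ)) = 0 := by
        linarith
      rcases mul_eq_zero.1 h2 with h2 | h2
      · exact absurd h2 hs0
      · have h3 : (n ⟨i, φ⟩ : ℝ) = (n ⟨i, ComplexEmbedding.conjugate φ⟩ : ℝ) := by linarith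
        exact_mod_cast h3.symm
    · exact (IT.conj_ne φ₀).symm
    · rintro φ ⟨h1, h2⟩
      rw [(half_iff Z i φ).1 (hk.2 φ h1 h2), mul_zero]
  · intro k _ hk'
    refine Finset.sum_eq_zero fun φ _ => ?_
    rw [hF (ga Z τ ⟨k, φ⟩) hk']
    simp
  · intro h
    exact absurd (Finset.mem_univ i) h

theorem neat_of_k3 (i : Z.X.I) (φ₀ : (Z.X.factor i).E →+* ℂ) (hk : IsK3Type Z i φ₀) :
    IsNeat Z i := by
  rw [neat_iff]
  intro e he hi φ
  have h1 := symm_of_k3 Z i φ₀ hk (fun w => (e w : ℤ)) ((IT.isRel_iff Z e).1 he)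
    (fun w hw => by rw [hi w hw]; rfl) φ
  exact_mod_cast h1.symm

theorem sum_even (n : Emb Z → ℤ) (hn : ∀ w, n (cj Z w) = n w) (g : ℂ ≃+* ℂ) :
    ∑ w, (n w : ℝ) * sl Z (ga Z g w) = 0 := by
  let e : Emb Z ≃ Emb Z := ⟨cj Z, cj Z, cj_cj Z, cj_cj Z⟩
  have h1 : ∑ w, (n w : ℝ) * sl Z (ga Z g w) = -∑ w, (n w : ℝ) * sl Z (ga Z g w) := by
    conv_lhs => rw [← Equiv.sum_comp e]
    rw [← Finset.sum_neg_distrib]
    refine Finset.sum_congr rfl fun w _ => ?_
    change (n (cj Z w) : ℝ) * sl Z (ga Z g (cj Z w)) = _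
    rw [hn, ga_cj, sl_cj]
    ring
  linarith

/-- The relations are the relations between the slopes. -/
theorem relZ_of_sl (n : Emb Z → ℤ)
    (hn : ∀ g : ℂ ≃+* ℂ, ∑ w, (n (ga Z g w) : ℝ) * sl Z w = 0) : n ∈ RelZ Z := by
  classical
  have hn' : ∀ g : ℂ ≃+* ℂ, ∑ w, (n w : ℝ) * sl Z (ga Z g w) = 0 := by
    intro g
    have h1 := hn g.symm
    let e : Emb Z ≃ Emb Z := ⟨ga Z g, ga Z g.symm, fun w => ga_symm Z g.symm w, ga_symm Z g⟩
    rw [← Equiv.sum_comp e] at h1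
    rw [← h1]
    refine Finset.sum_congr rfl fun w _ => ?_
    change _ = (n (ga Z g.symm (ga Z g w)) : ℝ) * sl Z (ga Z g w)
    have h2 : ga Z g.symm (ga Z g w) = w := ga_symm Z g.symm w
    rw [h2]
  set c : ℕ := ∑ w, (n w).natAbs with hc
  have h0 : ∀ w, 0 ≤ n w + c := by
    intro w
    have h1 : (n w).natAbs ≤ c :=
      Finset.single_le_sum (f := fun w => (n w).natAbs) (fun _ _ => Nat.zero_le _)
        (Finset.mem_univ w)
    omega
  let e : Emb Z → ℕ := fun w => (n w + c).toNat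
  have he : ∀ w, (e w : ℤ) = n w + c := fun w => Int.toNat_of_nonneg (h0 w)
  have hsum : ∀ g : ℂ ≃+* ℂ, ∑ w, (e w : ℝ) * sl Z (ga Z g w) = 0 := by
    intro g
    have h1 : ∀ w, (e w : ℝ) = (n w : ℝ) + (c : ℝ) := by
      intro w
      have h2 := congrArg (fun z : ℤ => (z : ℝ)) (he w)
      push_cast at h2
      exact h2
    have h2 := sum_even Z (fun _ => (c : ℤ)) (fun _ => rfl) g
    have h3 := hn' g
    rw [Finset.sum_congr rfl fun w _ => by rw [h1 w, add_mul], Finset.sum_add_distrib, h3,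
      zero_add]
    exact_mod_cast h2
  have hne : Nonempty (Z.X.prod (single (kp p))).I := ⟨Sum.inr ()⟩
  obtain ⟨L, _, _, _, _, j, hj⟩ := exists_cm (Z.X.prod (single (kp p)))
  have hZ : Big Z.X j := fun i ψ => hj (Sum.inl i) ψ
  have hbij := toEmb_bijective (j := j) hZ
  have _ : Fintype (Wt Z.X L) := Fintype.ofEquiv _ (Equiv.ofBijective _ hbij).symm
  have hrel : IsRel Z e := by
    rw [TH117.BL.isRel_iff hZ]
    intro σ
    obtain ⟨g, hg⟩ := exists_aut j (σ : L ≃+* L)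
    have h1 := hsum g
    rw [← Equiv.sum_comp (Equiv.ofBijective _ hbij)] at h1
    have hD : (0 : ℤ) < Nat.card (Dec p ν j) := by exact_mod_cast Nat.card_pos
    have hD' : (0 : ℝ) < (Nat.card (Dec p ν j) : ℝ) := by exact_mod_cast hD
    have hp0 : Real.log ‖(p : PadicAlgCl p)‖ < 0 := Real.log_neg norm_p_pos norm_p_lt
    have ha : (0 : ℝ) < (Z.a : ℝ) := by exact_mod_cast Z.pos
    have h2 : ∀ w : Wt Z.X L, (Nat.card (Dec p ν j) : ℝ) * sl Z (ga Z g (toEmb j Z w)) =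
        ((Z.a : ℝ) * Real.log ‖(p : PadicAlgCl p)‖) * (tw p ν j Z.X w σ : ℝ) := by
      intro w
      have h3 := congrArg Real.log (norm_pow_two_card hZ w σ)
      rw [Real.log_zpow, Real.log_zpow] at h3
      have h4 : eig Z (ga Z g (toEmb j Z w)) = j (σ (w.2 (Z.π w.1))) := hg _
      unfold sl
      rw [h4, norm_pow, Real.log_pow]
      push_cast at h3
      linarith
    have h5 : ((Z.a : ℝ) * Real.log ‖(p : PadicAlgCl p)‖) *
        ∑ w : Wt Z.X L, (e (toEmb j Z w) : ℝ) * (tw p ν j Z.X w σ : ℝ) = 0 := by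
      rw [Finset.mul_sum]
      calc ∑ w : Wt Z.X L, ((Z.a : ℝ) * Real.log ‖(p : PadicAlgCl p)‖) *
            ((e (toEmb j Z w) : ℝ) * (tw p ν j Z.X w σ : ℝ))
          = ∑ w : Wt Z.X L, (Nat.card (Dec p ν j) : ℝ) *
            ((e (toEmb j Z w) : ℝ) * sl Z (ga Z g (toEmb j Z w))) :=
            Finset.sum_congr rfl fun w _ => by linear_combination (-(e (toEmb j Z w) : ℝ)) * h2 w
        _ = 0 := by
            rw [← Finset.mul_sum]
            exact mul_eq_zero_of_right _ h1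
    rcases mul_eq_zero.1 h5 with h6 | h6
    · exact absurd h6 (mul_neg_of_pos_of_neg ha hp0).ne
    · exact_mod_cast h6
  have h1 := (IT.isRel_iff Z e).1 hrel
  have h2 : n = (fun w => (e w : ℤ)) - fun _ => (c : ℤ) := by
    funext w
    rw [Pi.sub_apply, he w]
    ring
  rw [h2]
  exact (RelZ Z).sub_mem h1 (relZ_of_symm Z _ fun _ => rfl)

open Classical in
/-- the part of the exponents at the factors in `F` -/
noncomputable def part (F : Set Z.X.I) (n : Emb Z → ℤ) (w : Emb Z) : ℤ := if w.1 ∈ F then n w else 0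

/-- **Two sets of factors.** -/
theorem part_mem (F F' : Set Z.X.I) (hd : Disjoint F F')
    (hu : ∃ u ∈ Subgroup.closure ({g : ℂ ≃+* ℂ | PreservesSlopes Z F g} ∪
      {g : ℂ ≃+* ℂ | PreservesSlopes Z F' g}), ∀ w, ga Z u w = cj Z w)
    (n : Emb Z → ℤ) (hn : n ∈ RelZ Z) (hF : ∀ w, w.1 ∉ F ∪ F' → n w = 0) :
    part Z F n ∈ RelZ Z := by
  classical
  have hpres : ∀ (H : Set Z.X.I) (g : ℂ ≃+* ℂ), PreservesSlopes Z H g → ∀ w : Emb Z, w.1 ∈ H →
      sl Z (ga Z g w) = sl Z w := by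
    intro H g hg w hw
    have h1 := hg w.1 hw w.2
    rw [sl_eq, sl_eq]
    congr 2
  let P : Set Z.X.I → (ℂ ≃+* ℂ) → ℝ := fun H τ => ∑ w, (part Z H n (ga Z τ w) : ℝ) * sl Z w
  have hPQ : ∀ τ, P F τ + P F' τ = 0 := by
    intro τ
    rw [← rel_sl Z n hn τ]
    change ∑ w, _ + ∑ w, _ = _
    rw [← Finset.sum_add_distrib]
    refine Finset.sum_congr rfl fun w _ => ?_
    rw [← add_mul]
    congr 1
    have hw : (ga Z τ w).1 = w.1 := rfl
    unfold part
    by_cases h : (ga Z τ w).1 ∈ F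
    · have h' : (ga Z τ w).1 ∉ F' := fun h' => Set.disjoint_left.1 hd h h'
      rw [if_pos h, if_neg h']
      simp
    · by_cases h' : (ga Z τ w).1 ∈ F'
      · rw [if_neg h, if_pos h']
        simp
      · rw [if_neg h, if_neg h', hF _ (by rintro (h1 | h1); exacts [h h1, h' h1])]
        simp
  have hinv : ∀ (H : Set Z.X.I) (g : ℂ ≃+* ℂ), PreservesSlopes Z H g → ∀ τ,
      P H (τ * g) = P H τ := by
    intro H g hg τ
    let e : Emb Z ≃ Emb Z := ⟨ga Z g, ga Z g.symm, fun w => ga_symm Z g.symm w, ga_symm Z g⟩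
    change ∑ w : Emb Z, _ = ∑ w : Emb Z, _
    rw [← Equiv.sum_comp e (fun w : Emb Z => (part Z H n (ga Z τ w) : ℝ) * sl Z w)]
    refine Finset.sum_congr rfl fun w _ => ?_
    change (part Z H n (ga Z (τ * g) w) : ℝ) * sl Z w =
      (part Z H n (ga Z τ (ga Z g w)) : ℝ) * sl Z (ga Z g w)
    rw [ga_mul]
    by_cases h : w.1 ∈ H
    · rw [hpres H g hg w h]
    · have h1 : part Z H n (ga Z τ (ga Z g w)) = 0 := if_neg h
      rw [h1]
      simp
  have hPinv : ∀ u ∈ Subgroup.closure ({g : ℂ ≃+* ℂ | PreservesSlopes Z F g} ∪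
      {g : ℂ ≃+* ℂ | PreservesSlopes Z F' g}), ∀ τ, P F (τ * u) = P F τ := by
    intro u hu
    induction hu using Subgroup.closure_induction with
    | mem g hg =>
      intro τ
      rcases hg with hg | hg
      · exact hinv F g hg τ
      · have h1 := hPQ (τ * g)
        have h2 := hPQ τ
        have h3 := hinv F' g hg τ
        linarith
    | one => intro τ; rw [mul_one]
    | mul x y _ _ hx hy => intro τ; rw [← mul_assoc, hy, hx]
    | inv x _ hx =>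
      intro τ
      have h1 := hx (τ * x⁻¹)
      rw [inv_mul_cancel_right] at h1
      exact h1.symm
  obtain ⟨u, hu1, hu2⟩ := hu
  refine relZ_of_sl Z _ fun τ => ?_
  have h1 : P F (τ * u) = P F τ := hPinv u hu1 τ
  have h2 : P F (τ * u) = -P F τ := by
    let e : Emb Z ≃ Emb Z := ⟨cj Z, cj Z, cj_cj Z, cj_cj Z⟩
    change ∑ w : Emb Z, _ = -∑ w : Emb Z, _
    rw [← Equiv.sum_comp e (fun w : Emb Z => (part Z F n (ga Z τ w) : ℝ) * sl Z w),
      ← Finset.sum_neg_distrib]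
    refine Finset.sum_congr rfl fun w _ => ?_
    change (part Z F n (ga Z (τ * u) w) : ℝ) * sl Z w =
      -((part Z F n (ga Z τ (cj Z w)) : ℝ) * sl Z (cj Z w))
    rw [ga_mul, hu2, sl_cj]
    ring
  have h3 : P F τ = 0 := by linarith
  exact h3

end basic

end Pool.Agent.K3h98.KT
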