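import Pool.Agent.K3h98.TW.Defs

/-!
# Slope fields of abelian varieties over finite fields: definitions
-/

set_option autoImplicit false

namespace Pool.Agent.K3h98.KT

open NumberField Module Pool.Agent.H204R3.CM Pool.Agent.W547.KB Pool.Agent.W495.TA
  Pool.Agent.K3h98.TW

variable {p : ℕ} [Fact p.Prime] {ν : PadicAlgCl p ≃+* ℂ}

/-- The slope of the Frobenius eigenvalue of the factor `k` that belongs to the embedding `φ`: its `p`-adic
valuation (for the place `ν`), normalised by the valuation of the number of elements of the ground
field. -/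
noncomputable def slope (Z : RedAV p ν) (k : Z.X.I) (φ : (Z.X.factor k).E →+* ℂ) : ℝ :=
  Real.log ‖ν.symm (ev Z k φ)‖ / Real.log ‖(p : PadicAlgCl p) ^ Z.a‖

/-- The automorphism `g` of the field of complex numbers preserves the slopes of the factors in `F`: for
each complex embedding `φ` of the CM field of such a factor the Frobenius eigenvalues that belong to
`φ` and to `g ∘ φ` have the same slope. -/
def PreservesSlopes (Z : RedAV p ν) (F : Set Z.X.I) (g : ℂ ≃+* ℂ) : Prop :=
  ∀ k ∈ F, ∀ φ : (Z.X.factor k).E →+* ℂ, slope Z k ((g : ℂ →+* ℂ).comp φ) = slope Z k φ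

/-- The slope field of the set `F` of factors: the algebraic numbers that are fixed by all automorphisms
of the field of complex numbers which preserve the slopes of the factors in `F`. -/
def slopeField (Z : RedAV p ν) (F : Set Z.X.I) : Set ℂ :=
  {x | IsAlgebraic ℚ x ∧ ∀ g : ℂ ≃+* ℂ, PreservesSlopes Z F g → g x = x}

/-- The sets of factors that are obtained from the bases of towers (`IsBase`) and from single factors
with only trivial relations between their Frobenius eigenvalues (`IsNeat`) by successive unions of two
disjoint sets whose slope fields have an intersection that consists of real numbers, and adjunctions of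
single factors with only trivial relations whose CM field is free over all conjugates of the CM fields of
the factors in the given set (`IsFree`). -/
inductive IsMerged (Z : RedAV p ν) : Set Z.X.I → Prop
  | base (S : Set Z.X.I) : IsBase Z S → IsMerged Z S
  | neat (i : Z.X.I) : IsNeat Z i → IsMerged Z {i}
  | union (F F' : Set Z.X.I) : IsMerged Z F → IsMerged Z F' → Disjoint F F' →
      (∀ x ∈ slopeField Z F, x ∈ slopeField Z F' → x.im = 0) → IsMerged Z (F ∪ F')
  | step (F : Set Z.X.I) (i : Z.X.I) : IsMerged Z F → i ∉ F → IsNeat Z i →
      IsFree (Z.X.factor i).E (Fix Z F) → IsMerged Z (insert i F)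

/-- The abelian variety `Y` is, over an algebraic closure, isogenous to a product of a supersingular
abelian variety and of powers of the factors of an abelian variety `Z` all of whose factors form a merged
set. -/
def IsMergedAV (Y : RedAV p ν) : Prop :=
  ∃ Z : RedAV p ν, IsMerged Z Set.univ ∧ ∀ i, IsSS Y i ∨ ∃ k, IsPower Y Z i k

/-- The factor `i` is of K3 type (Zarhin), with the distinguished embedding `φ₀` of its CM field: the
slopes that belong to `φ₀` and to the complex conjugate embedding are not `1 / 2`, and all the others
are `1 / 2`. -/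
def IsK3Type (Z : RedAV p ν) (i : Z.X.I) (φ₀ : (Z.X.factor i).E →+* ℂ) : Prop :=
  slope Z i φ₀ ≠ 1 / 2 ∧ ∀ φ, φ ≠ φ₀ → φ ≠ ComplexEmbedding.conjugate φ₀ → slope Z i φ = 1 / 2

/-- The slope at the embedding `φ₀` dominates: its distance from `1 / 2` is positive, and at least the sum
of the distances of the slopes from `1 / 2` over the other pairs of complex conjugate embeddings (so the
sum over all embeddings is at most four times this distance). -/
def IsDominant (Z : RedAV p ν) (i : Z.X.I) (φ₀ : (Z.X.factor i).E →+* ℂ) : Prop :=
  slope Z i φ₀ ≠ 1 / 2 ∧ ∑ φ, |slope Z i φ - 1 / 2| ≤ 4 * |slope Z i φ₀ - 1 / 2|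

/-- All the subfields of `E`, except `E`, are totally real. -/
def HasRealSubfields (E : Type) [Field E] : Prop :=
  ∀ S : Subfield E, S ≠ ⊤ → ∀ φ : E →+* ℂ, ∀ x ∈ S, (φ x).im = 0

/-- Criteria:

* a subfield of the field of complex numbers that contains the images of the CM fields of the factors in
  `F` under the distinguished embeddings, if all of them are of K3 type, contains the slope field
  of `F`;
* a factor of K3 type has only trivial relations;
* a factor with a dominant slope whose CM field has no proper CM subfield has only trivial relations;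
* two factors of K3 type whose CM fields have no proper CM subfields, and different images under the
  distinguished embeddings, form a merged set;
* a factor that is not supersingular can be adjoined to a merged set `F` if its CM field has degree
  `2 q`, with an odd prime number `q`, it contains no imaginary quadratic field, and the CM fields of the
  factors in `F` have degrees less than `2 q`. -/
def SlopeCriteria : Prop :=
  ∀ (p : ℕ) [Fact p.Prime] (ν : PadicAlgCl p ≃+* ℂ) (Z : RedAV p ν),
    (∀ (F : Set Z.X.I) (K : Subfield ℂ),
      (∀ k ∈ F, ∃ φ₁ : (Z.X.factor k).E →+* ℂ, IsK3Type Z k φ₁ ∧ ∀ x, φ₁ x ∈ K) →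
        ∀ x ∈ slopeField Z F, x ∈ K) ∧
    (∀ (i : Z.X.I) (φ₀ : (Z.X.factor i).E →+* ℂ), IsK3Type Z i φ₀ → IsNeat Z i) ∧
    (∀ (i : Z.X.I) (φ₀ : (Z.X.factor i).E →+* ℂ), IsDominant Z i φ₀ →
      HasRealSubfields (Z.X.factor i).E → IsNeat Z i) ∧
    (∀ (i k : Z.X.I) (φ₀ : (Z.X.factor i).E →+* ℂ) (φ₁ : (Z.X.factor k).E →+* ℂ), i ≠ k →
      IsK3Type Z i φ₀ → IsK3Type Z k φ₁ → HasRealSubfields (Z.X.factor i).E →
      HasRealSubfields (Z.X.factor k).E → Set.range φ₀ ≠ Set.range φ₁ → IsMerged Z {i, k}) ∧
    ∀ (F : Set Z.X.I) (i : Z.X.I) (q : ℕ), IsMerged Z F → i ∉ F → ¬ IsSS Z i →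
      IsPrimeCM (Z.X.factor i).E q → (∀ k ∈ F, dg Z k < 2 * q) → IsMerged Z (insert i F)

end Pool.Agent.K3h98.KT
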