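import Mathlib

/-!
# Dominant slopes: combinatorics
-/

set_option autoImplicit false

namespace Pool.Agent.K3h98.KT

section comb

variable {G X : Type*} [Group G] [Fintype G] [Fintype X] [DecidableEq X]
  (act : G → X → X) (hmul : ∀ g h x, act (g * h) x = act g (act h x))
  (c : X → X) (hcc : ∀ x, c (c x) = x) (hcne : ∀ x, c x ≠ x)
  (hcomm : ∀ g x, c (act g x) = act g (c x))
  (m d : X → ℝ) (hm : ∀ x, m (c x) = -m x) (hd : ∀ x, d (c x) = -d x)
  (x₀ : X) (htr : ∀ x, ∃ g, act g x₀ = x) (h0 : 0 < d x₀)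
  (hdom : ∑ x, |d x| ≤ 4 * d x₀) (hrel : ∀ g, ∑ x, m (act g x) * d x = 0)

include hcne in
theorem sum_split (f : X → ℝ) :
    ∑ x, f x = f x₀ + f (c x₀) + ∑ x ∈ (Finset.univ.erase x₀).erase (c x₀), f x := by
  rw [← Finset.add_sum_erase Finset.univ f (Finset.mem_univ x₀),
    ← Finset.add_sum_erase (Finset.univ.erase x₀) f
      (Finset.mem_erase.2 ⟨hcne x₀, Finset.mem_univ _⟩), add_assoc]

theorem term_nonneg (t a b : ℝ) : 0 ≤ |t| * (a ^ 2 + b ^ 2) + 2 * t * a * b := by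
  rcases le_total 0 t with h | h
  · rw [abs_of_nonneg h]
    nlinarith [mul_nonneg h (sq_nonneg (a + b))]
  · rw [abs_of_nonpos h]
    nlinarith [mul_nonneg (neg_nonneg.2 h) (sq_nonneg (a - b))]

include hmul hcne hcomm hm hd htr hdom hrel in
theorem comb_main :
    (∀ x, x ≠ x₀ → x ≠ c x₀ → d x < 0 → ∀ g, m (act g x) = m (act g x₀)) ∧
    ((∀ g, m (act g x₀) = 0) ∨
      ∑ x ∈ (Finset.univ.erase x₀).erase (c x₀), |d x| = 2 * d x₀ ∨ d x₀ ≤ 0) := by
  classical
  set T := (Finset.univ.erase x₀).erase (c x₀) with hT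
  by_cases h0 : d x₀ ≤ 0
  · have h1 : ∑ x, |d x| ≤ 0 := le_trans hdom (by linarith)
    have h2 : ∀ x, d x = 0 := by
      intro x
      have h3 := (Finset.sum_eq_zero_iff_of_nonneg fun x _ => abs_nonneg (d x)).1
        (le_antisymm h1 (Finset.sum_nonneg fun x _ => abs_nonneg (d x))) x (Finset.mem_univ x)
      exact abs_eq_zero.1 h3
    exact ⟨fun x _ _ h => absurd (h2 x) h.ne, Or.inr (Or.inr h0)⟩
  push Not at h0
  -- the sum over `T`
  have hTd : ∑ x ∈ T, |d x| ≤ 2 * d x₀ := by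
    have h1 := sum_split c hcne x₀ (fun x => |d x|)
    rw [hd, abs_neg, abs_of_pos h0] at h1
    linarith
  have hTm : ∀ g, ∑ x ∈ T, d x * m (act g x) = -2 * m (act g x₀) * d x₀ := by
    intro g
    have h1 := sum_split c hcne x₀ (fun x => m (act g x) * d x)
    rw [hrel, hd, ← hcomm, hm] at h1
    have h2 : ∑ x ∈ T, d x * m (act g x) = ∑ x ∈ T, m (act g x) * d x :=
      Finset.sum_congr rfl fun x _ => mul_comm _ _
    rw [h2]
    linarith
  let W : ℝ := ∑ g, m (act g x₀) ^ 2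
  have hW : ∀ x, ∑ g, m (act g x) ^ 2 = W := by
    intro x
    obtain ⟨h, rfl⟩ := htr x
    have h1 : ∀ g, m (act g (act h x₀)) ^ 2 = m (act (g * h) x₀) ^ 2 := fun g => by rw [hmul]
    rw [Finset.sum_congr rfl fun g _ => h1 g]
    exact Equiv.sum_comp (Equiv.mulRight h) (fun g => m (act g x₀) ^ 2)
  have hW0 : 0 ≤ W := Finset.sum_nonneg fun g _ => sq_nonneg _
  have hV : ∑ g, ∑ x ∈ T, (|d x| * (m (act g x) ^ 2 + m (act g x₀) ^ 2) +
      2 * d x * m (act g x) * m (act g x₀)) = 2 * W * (∑ x ∈ T, |d x| - 2 * d x₀) := by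
    have h1 : ∀ g, ∑ x ∈ T, (|d x| * (m (act g x) ^ 2 + m (act g x₀) ^ 2) +
        2 * d x * m (act g x) * m (act g x₀)) =
        ∑ x ∈ T, |d x| * (m (act g x) ^ 2 + m (act g x₀) ^ 2) - 4 * d x₀ * m (act g x₀) ^ 2 := by
      intro g
      rw [Finset.sum_add_distrib]
      have h2 : ∑ x ∈ T, 2 * d x * m (act g x) * m (act g x₀) =
          (2 * m (act g x₀)) * ∑ x ∈ T, d x * m (act g x) := by
        rw [Finset.mul_sum]
        exact Finset.sum_congr rfl fun x _ => by ring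
      rw [h2, hTm]
      ring
    rw [Finset.sum_congr rfl fun g _ => h1 g, Finset.sum_sub_distrib, Finset.sum_comm,
      ← Finset.mul_sum]
    have h2 : ∀ x ∈ T, ∑ g, |d x| * (m (act g x) ^ 2 + m (act g x₀) ^ 2) = |d x| * (2 * W) := by
      intro x _
      rw [← Finset.mul_sum, Finset.sum_add_distrib, hW, hW]
      ring
    rw [Finset.sum_congr rfl h2, ← Finset.sum_mul]
    change _ - 4 * d x₀ * W = _
    ring
  have hVn : 0 ≤ ∑ g, ∑ x ∈ T, (|d x| * (m (act g x) ^ 2 + m (act g x₀) ^ 2) +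
      2 * d x * m (act g x) * m (act g x₀)) :=
    Finset.sum_nonneg fun g _ => Finset.sum_nonneg fun x _ => term_nonneg _ _ _
  have hV0 : 2 * W * (∑ x ∈ T, |d x| - 2 * d x₀) = 0 := by
    refine le_antisymm ?_ (by rw [← hV]; exact hVn)
    exact mul_nonpos_of_nonneg_of_nonpos (by linarith) (by linarith)
  refine ⟨fun x hx1 hx2 hx g => ?_, ?_⟩
  · rw [hV0] at hV
    have h1 := (Finset.sum_eq_zero_iff_of_nonneg fun g _ => Finset.sum_nonneg fun x _ =>
      term_nonneg _ _ _).1 hV g (Finset.mem_univ g)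
    have h2 := (Finset.sum_eq_zero_iff_of_nonneg fun x _ => term_nonneg _ _ _).1 h1 x
      (Finset.mem_erase.2 ⟨hx2, Finset.mem_erase.2 ⟨hx1, Finset.mem_univ _⟩⟩)
    rw [abs_of_neg hx] at h2
    have h3 : (-d x) * (m (act g x) - m (act g x₀)) ^ 2 = 0 := by linarith
    rcases mul_eq_zero.1 h3 with h4 | h4
    · linarith
    · exact sub_eq_zero.1 (pow_eq_zero_iff two_ne_zero |>.1 h4)
  · rcases mul_eq_zero.1 hV0 with h1 | h1
    · left
      intro g
      have h2 : W = 0 := by linarith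
      have h3 := (Finset.sum_eq_zero_iff_of_nonneg fun g _ => sq_nonneg (m (act g x₀))).1 h2 g
        (Finset.mem_univ g)
      exact pow_eq_zero_iff two_ne_zero |>.1 h3
    · right
      left
      linarith

include hmul hcc hcne hcomm hm hd htr h0 hdom hrel in
/-- If there is a nonzero relation, then it is invariant under the change of `x₀` to some other
element. -/
theorem comb_cases (hne : ∃ g, m (act g x₀) ≠ 0) :
    ∃ x, x ≠ x₀ ∧ d x < 0 ∧ ∀ g, m (act g x) = m (act g x₀) := by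
  obtain ⟨h1, h2⟩ := comb_main act hmul c hcne hcomm m d hm hd x₀ htr hdom hrel
  rcases h2 with h2 | h2 | h2
  · obtain ⟨g, hg⟩ := hne
    exact absurd (h2 g) hg
  · have h3 : ∃ x ∈ (Finset.univ.erase x₀).erase (c x₀), d x ≠ 0 := by
      by_contra hcon
      push Not at hcon
      rw [Finset.sum_eq_zero fun x hx => by rw [hcon x hx, abs_zero]] at h2
      linarith
    obtain ⟨x, hx, hx0⟩ := h3
    obtain ⟨hx2, hx1⟩ := Finset.mem_erase.1 hx
    have hx1 := (Finset.mem_erase.1 hx1).1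
    rcases lt_or_gt_of_ne hx0 with h4 | h4
    · exact ⟨x, hx1, h4, h1 x hx1 hx2 h4⟩
    · have h5 : d (c x) < 0 := by rw [hd]; linarith
      have h6 : c x ≠ x₀ := fun h => hx2 (by rw [← h, hcc])
      have h7 : c x ≠ c x₀ := fun h => hx1 (by rw [← hcc x, h, hcc])
      exact ⟨c x, h6, h5, h1 _ h6 h7 h5⟩
  · linarith

theorem closure_inv {G X : Type*} [Group G] (act : G → X → X)
    (hmul : ∀ g h x, act (g * h) x = act g (act h x)) (m : X → ℝ) (x₀ x₁ : X)
    (hinv : ∀ g, m (act g x₁) = m (act g x₀)) (u : G)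
    (hu : u ∈ Subgroup.closure {g | act g x₀ = x₀ ∨ act g x₀ = x₁}) :
    ∀ g, m (act (g * u) x₀) = m (act g x₀) := by
  induction hu using Subgroup.closure_induction with
  | mem h hh =>
    intro g
    rw [hmul]
    rcases hh with hh | hh
    · rw [hh]
    · rw [hh, hinv]
  | one => intro g; rw [mul_one]
  | mul x y _ _ hx hy => intro g; rw [← mul_assoc, hy, hx]
  | inv x _ hx =>
    intro g
    have h1 := hx (g * x⁻¹)
    rw [inv_mul_cancel_right] at h1
    exact h1.symm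

end comb

end Pool.Agent.K3h98.KT
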