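import Pool.Agent.K3h98.KT.Core
import Pool.Agent.K3h98.KT.Dom

/-!
# Dominant slopes: relations
-/

set_option autoImplicit false

namespace Pool.Agent.K3h98.KT

open NumberField Module Pool.Agent.H204R3.CM Pool.Agent.W547.KB Pool.Agent.W495.TA
  Pool.Agent.TH117.BL Pool.Agent.K3h98.TW Pool.Agent.K3h98.IT Pool.Agent.H977R3.CM

variable {p : ℕ} [Fact p.Prime] {ν : PadicAlgCl p ≃+* ℂ}

section basic

variable (Z : RedAV p ν)

theorem symm_of_dominant_aux (i : Z.X.I) (φ₀ : (Z.X.factor i).E →+* ℂ)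
    (h0 : 0 < sl Z ⟨i, φ₀⟩)
    (hdom : ∑ φ : (Z.X.factor i).E →+* ℂ, |sl Z ⟨i, φ⟩| ≤ 4 * sl Z ⟨i, φ₀⟩)
    (hreal : HasRealSubfields (Z.X.factor i).E)
    (n : Emb Z → ℤ) (hn : n ∈ RelZ Z) (hF : ∀ w, w.1 ≠ i → n w = 0) :
    ∀ φ, n ⟨i, ComplexEmbedding.conjugate φ⟩ = n ⟨i, φ⟩ := by
  classical
  have hne : Nonempty (Z.X.prod (single (kp p))).I := ⟨Sum.inr ()⟩
  obtain ⟨L, _, _, _, _, j, hj⟩ := exists_cm (Z.X.prod (single (kp p)))
  have hZ : ∀ (ψ : (Z.X.factor i).E →+* ℂ), ∃ φ : (Z.X.factor i).E →+* L,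
      j.comp φ = ψ := fun ψ => hj (Sum.inl i) ψ
  obtain ⟨cL, hc⟩ := exists_gal j (Complex.conjAe.toRingEquiv)
  have hc' : ∀ x, (starRingEnd ℂ) (j x) = j (cL x) := hc
  let act : (L ≃ₐ[ℚ] L) → ((Z.X.factor i).E →+* L) → ((Z.X.factor i).E →+* L) :=
    fun σ φ => ((σ : L ≃+* L) : L →+* L).comp φ
  have hmul : ∀ g h x, act (g * h) x = act g (act h x) := fun _ _ _ => rfl
  have jinj : ∀ x y : (Z.X.factor i).E →+* L, j.comp x = j.comp y → x = y := by
    intro x y h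
    ext a
    exact j.injective (RingHom.congr_fun h a)
  have hlift : ∀ σ : L ≃ₐ[ℚ] L, ∃ g : ℂ ≃+* ℂ, ∀ x, j.comp (act σ x) =
      (g : ℂ →+* ℂ).comp (j.comp x) := by
    intro σ
    obtain ⟨g, hg⟩ := exists_aut j (σ : L ≃+* L)
    refine ⟨g, fun x => ?_⟩
    ext a
    exact (hg (x a)).symm
  let c : ((Z.X.factor i).E →+* L) → ((Z.X.factor i).E →+* L) := act cL
  have hcj : ∀ x, j.comp (c x) = ComplexEmbedding.conjugate (j.comp x) := by
    intro x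
    ext a
    exact (hc' (x a)).symm
  have hcc : ∀ x, c (c x) = x := by
    intro x
    apply jinj
    rw [hcj, hcj, ComplexEmbedding.involutive_conjugate]
  have hcne : ∀ x, c x ≠ x := by
    intro x h
    have h1 := hcj x
    rw [h] at h1
    exact IT.conj_ne (j.comp x) h1.symm
  have hcomm : ∀ g x, c (act g x) = act g (c x) := by
    intro σ x
    obtain ⟨g, hg⟩ := hlift σ
    apply jinj
    rw [hcj, hg, hg, hcj, conj_comp]
  let m : ((Z.X.factor i).E →+* L) → ℝ := fun x => (n ⟨i, j.comp x⟩ : ℝ) -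
    (n ⟨i, ComplexEmbedding.conjugate (j.comp x)⟩ : ℝ)
  let d : ((Z.X.factor i).E →+* L) → ℝ := fun x => sl Z ⟨i, j.comp x⟩
  have hm : ∀ x, m (c x) = -m x := by
    intro x
    change (n ⟨i, j.comp (c x)⟩ : ℝ) -
      (n ⟨i, ComplexEmbedding.conjugate (j.comp (c x))⟩ : ℝ) = _
    rw [hcj, ComplexEmbedding.involutive_conjugate]
    change _ = -((n ⟨i, j.comp x⟩ : ℝ) - (n ⟨i, ComplexEmbedding.conjugate (j.comp x)⟩ : ℝ))
    ring
  have hd : ∀ x, d (c x) = -d x := by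
    intro x
    change sl Z ⟨i, j.comp (c x)⟩ = -sl Z ⟨i, j.comp x⟩
    rw [hcj]
    exact sl_cj Z ⟨i, j.comp x⟩
  have hbij : Function.Bijective (fun x : (Z.X.factor i).E →+* L => j.comp x) :=
    ⟨fun x y h => jinj x y h, fun ψ => hZ ψ⟩
  have hsum : ∀ f : ((Z.X.factor i).E →+* ℂ) → ℝ, ∑ x : (Z.X.factor i).E →+* L, f (j.comp x) =
      ∑ φ, f φ := fun f => Equiv.sum_comp (Equiv.ofBijective _ hbij) f
  have hA : ∀ g : ℂ ≃+* ℂ, ∑ φ : (Z.X.factor i).E →+* ℂ,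
      (n ⟨i, (g : ℂ →+* ℂ).comp φ⟩ : ℝ) * sl Z ⟨i, φ⟩ = 0 := by
    intro g
    have h1 := rel_sl Z n hn g
    rw [Fintype.sum_sigma, Finset.sum_eq_single i] at h1
    · exact h1
    · intro k _ hk'
      refine Finset.sum_eq_zero fun φ _ => ?_
      rw [hF (ga Z g ⟨k, φ⟩) hk']
      simp
    · intro h
      exact absurd (Finset.mem_univ i) h
  have hrel : ∀ σ, ∑ x, m (act σ x) * d x = 0 := by
    intro σ
    obtain ⟨g, hg⟩ := hlift σ
    have h1 : ∀ x, m (act σ x) * d x = (fun φ : (Z.X.factor i).E →+* ℂ =>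
        (n ⟨i, (g : ℂ →+* ℂ).comp φ⟩ : ℝ) * sl Z ⟨i, φ⟩ -
          (n ⟨i, ComplexEmbedding.conjugate ((g : ℂ →+* ℂ).comp φ)⟩ : ℝ) * sl Z ⟨i, φ⟩)
        (j.comp x) := by
      intro x
      change ((n ⟨i, j.comp (act σ x)⟩ : ℝ) -
        (n ⟨i, ComplexEmbedding.conjugate (j.comp (act σ x))⟩ : ℝ)) * sl Z ⟨i, j.comp x⟩ = _
      rw [hg]
      ring
    refine (Finset.sum_congr rfl fun x _ => h1 x).trans ((hsum (fun φ =>
      (n ⟨i, (g : ℂ →+* ℂ).comp φ⟩ : ℝ) * sl Z ⟨i, φ⟩ -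
        (n ⟨i, ComplexEmbedding.conjugate ((g : ℂ →+* ℂ).comp φ)⟩ : ℝ) * sl Z ⟨i, φ⟩)).trans ?_)
    rw [Finset.sum_sub_distrib, hA, zero_sub, neg_eq_zero]
    let e : ((Z.X.factor i).E →+* ℂ) ≃ ((Z.X.factor i).E →+* ℂ) :=
      (ComplexEmbedding.involutive_conjugate _).toPerm
    rw [← Equiv.sum_comp e]
    have h2 : ∀ φ, (n ⟨i, ComplexEmbedding.conjugate ((g : ℂ →+* ℂ).comp (e φ))⟩ : ℝ) *
        sl Z ⟨i, e φ⟩ = -((n ⟨i, (g : ℂ →+* ℂ).comp φ⟩ : ℝ) * sl Z ⟨i, φ⟩) := by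
      intro φ
      have h3 : ComplexEmbedding.conjugate ((g : ℂ →+* ℂ).comp (e φ)) =
          (g : ℂ →+* ℂ).comp φ := by
        rw [conj_comp]
        congr 1
        exact ComplexEmbedding.involutive_conjugate _ φ
      have h4 : sl Z ⟨i, e φ⟩ = -sl Z ⟨i, φ⟩ := sl_cj Z ⟨i, φ⟩
      rw [h3, h4]
      ring
    rw [Finset.sum_congr rfl fun φ _ => h2 φ, Finset.sum_neg_distrib, hA, neg_zero]
  obtain ⟨x₀, hx₀⟩ := hZ φ₀
  have htr : ∀ x, ∃ σ, act σ x₀ = x := by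
    intro x
    obtain ⟨g, hg⟩ := exists_comp φ₀ (j.comp x)
    obtain ⟨σ, hσ⟩ := exists_gal j g
    refine ⟨σ, jinj _ _ ?_⟩
    rw [← hg, ← hx₀]
    ext a
    exact (hσ (x₀ a)).symm
  have h0' : 0 < d x₀ := by
    change 0 < sl Z ⟨i, j.comp x₀⟩
    rw [hx₀]
    exact h0
  have hdom' : ∑ x, |d x| ≤ 4 * d x₀ := by
    have h1 := hsum (fun φ => |sl Z ⟨i, φ⟩|)
    change ∑ x : (Z.X.factor i).E →+* L, |sl Z ⟨i, j.comp x⟩| ≤ 4 * sl Z ⟨i, j.comp x₀⟩
    rw [h1, hx₀]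
    exact hdom
  have hzero : ∀ g, m (act g x₀) = 0 := by
    by_contra hcon
    push Not at hcon
    obtain ⟨x₁, h1, -, h2⟩ := comb_cases act hmul c hcc hcne hcomm m d hm hd x₀ htr h0' hdom'
      hrel hcon
    have hcU : cL ∈ Subgroup.closure {σ | act σ x₀ = x₀ ∨ act σ x₀ = x₁} := by
      set U := Subgroup.closure {σ | act σ x₀ = x₀ ∨ act σ x₀ = x₁} with hU
      have h3 : cL ∈ (IntermediateField.fixedField U).fixingSubgroup := by
        rw [IntermediateField.mem_fixingSubgroup_iff]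
        intro y hy
        rw [IntermediateField.mem_fixedField_iff] at hy
        have hyE : ∃ a, x₀ a = y := by
          let φ' : (Z.X.factor i).E →ₐ[ℚ] L := RingHom.equivRatAlgHom (Z.X.factor i).E L x₀
          have h1 : y ∈ φ'.fieldRange := by
            rw [← IsGalois.fixedField_fixingSubgroup φ'.fieldRange]
            rw [IntermediateField.mem_fixedField_iff]
            intro σ hσ
            rw [IntermediateField.mem_fixingSubgroup_iff] at hσ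
            refine hy σ (Subgroup.subset_closure (Or.inl ?_))
            ext a
            exact hσ (x₀ a) ⟨a, rfl⟩
          obtain ⟨a, ha⟩ := h1
          exact ⟨a, ha⟩
        obtain ⟨a, rfl⟩ := hyE
        obtain ⟨σ₁, hσ₁⟩ := htr x₁
        have h4 : x₁ a = x₀ a := by
          have h5 := hy σ₁ (Subgroup.subset_closure (Or.inr hσ₁))
          have h6 : x₁ a = σ₁ (x₀ a) := by
            rw [← hσ₁]
            rfl
          rw [h6, h5]
        have hS : RingHom.eqLocusField x₁ x₀ ≠ ⊤ := by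
          intro h
          apply h1
          ext b
          have h7 : b ∈ RingHom.eqLocusField x₁ x₀ := by
            rw [h]
            exact Subfield.mem_top b
          exact h7
        have h8 := hreal _ hS (j.comp x₀) a h4
        apply j.injective
        rw [← hc']
        exact Complex.conj_eq_iff_im.2 h8
      rwa [IntermediateField.fixingSubgroup_fixedField] at h3
    obtain ⟨g, hg⟩ := hcon
    have h4 := closure_inv act hmul m x₀ x₁ h2 cL hcU g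
    rw [hmul] at h4
    have h5 : act g (act cL x₀) = c (act g x₀) := (hcomm g x₀).symm
    rw [h5, hm] at h4
    apply hg
    linarith
  intro φ
  obtain ⟨x, rfl⟩ := hZ φ
  obtain ⟨σ, rfl⟩ := htr x
  have h1 := hzero σ
  have h2 : (n ⟨i, j.comp (act σ x₀)⟩ : ℝ) =
      (n ⟨i, ComplexEmbedding.conjugate (j.comp (act σ x₀))⟩ : ℝ) := sub_eq_zero.1 h1
  exact_mod_cast h2.symm

theorem neat_of_dominant (i : Z.X.I) (φ₀ : (Z.X.factor i).E →+* ℂ) (hk : IsDominant Z i φ₀)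
    (hreal : HasRealSubfields (Z.X.factor i).E) : IsNeat Z i := by
  rw [neat_iff]
  intro e he hi φ
  set c := 2 * Real.log ‖(p : PadicAlgCl p) ^ Z.a‖ with hc
  have hcneg : c < 0 := by
    have := logq_neg Z
    rw [hc]
    linarith
  have hsl : ∀ φ, sl Z ⟨i, φ⟩ = c * (slope Z i φ - 1 / 2) := fun φ => sl_eq Z ⟨i, φ⟩
  have habs : ∀ φ, |sl Z ⟨i, φ⟩| = (-c) * |slope Z i φ - 1 / 2| := by
    intro φ
    rw [hsl, abs_mul, abs_of_neg hcneg]
  have hsum : ∑ φ : (Z.X.factor i).E →+* ℂ, |sl Z ⟨i, φ⟩| ≤ 4 * |sl Z ⟨i, φ₀⟩| := by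
    rw [Finset.sum_congr rfl fun φ _ => habs φ, ← Finset.mul_sum, habs]
    have h1 := mul_le_mul_of_nonneg_left hk.2 (neg_nonneg.2 hcneg.le)
    linarith
  have h0 : sl Z ⟨i, φ₀⟩ ≠ 0 := by
    rw [hsl]
    exact mul_ne_zero hcneg.ne (sub_ne_zero.2 hk.1)
  have hrel := (IT.isRel_iff Z e).1 he
  have hF : ∀ w : Emb Z, w.1 ≠ i → (fun w => (e w : ℤ)) w = 0 := fun w hw => by
    change (e w : ℤ) = 0
    rw [hi w hw]
    rfl
  rcases lt_or_gt_of_ne h0 with h1 | h1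
  · have h2 : sl Z ⟨i, ComplexEmbedding.conjugate φ₀⟩ = -sl Z ⟨i, φ₀⟩ := sl_cj Z ⟨i, φ₀⟩
    have h3 := symm_of_dominant_aux Z i (ComplexEmbedding.conjugate φ₀) (by rw [h2]; linarith)
      (by rw [h2, ← abs_of_neg h1]; exact hsum) hreal _ hrel hF φ
    exact_mod_cast h3.symm
  · have h3 := symm_of_dominant_aux Z i φ₀ h1 (by rw [abs_of_pos h1] at hsum; exact hsum) hreal
      _ hrel hF φ
    exact_mod_cast h3.symm

end basic

end Pool.Agent.K3h98.KT
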