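import Pool.Agent.K3h98.KT.DomMain
import Pool.Agent.K3h98.KT.MotDefs

/-!
# Slope fields: merging of sets of factors, and criteria
-/

set_option autoImplicit false

namespace Pool.Agent.K3h98.KT

open NumberField Module Pool.Agent.H204R3.CM Pool.Agent.W547.KB Pool.Agent.W495.TA
  Pool.Agent.W495.FM Pool.Agent.TH117.GN
  Pool.Agent.TH117.BL Pool.Agent.K3h98.TW Pool.Agent.K3h98.IT Pool.Agent.H977R3.CM

variable {p : ℕ} [Fact p.Prime] {ν : PadicAlgCl p ≃+* ℂ}

section basic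

variable (Z : RedAV p ν)

theorem pres_one (F : Set Z.X.I) : PreservesSlopes Z F (1 : ℂ ≃+* ℂ) := fun _ _ _ => rfl

theorem pres_mul (F : Set Z.X.I) (g h : ℂ ≃+* ℂ) (hg : PreservesSlopes Z F g)
    (hh : PreservesSlopes Z F h) : PreservesSlopes Z F (g * h) := by
  intro k hk φ
  have h1 : ((g * h : ℂ ≃+* ℂ) : ℂ →+* ℂ).comp φ =
    (g : ℂ →+* ℂ).comp ((h : ℂ →+* ℂ).comp φ) := rfl
  rw [h1, hg k hk, hh k hk]

theorem pres_inv (F : Set Z.X.I) (g : ℂ ≃+* ℂ) (hg : PreservesSlopes Z F g) :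
    PreservesSlopes Z F g⁻¹ := by
  intro k hk φ
  have h1 := hg k hk (((g⁻¹ : ℂ ≃+* ℂ) : ℂ →+* ℂ).comp φ)
  have h2 : (g : ℂ →+* ℂ).comp (((g⁻¹ : ℂ ≃+* ℂ) : ℂ →+* ℂ).comp φ) = φ := by
    ext x
    exact g.apply_symm_apply _
  rw [h2] at h1
  exact h1.symm

/-- the automorphisms of the Galois field that preserve the slopes -/
def HF {L : Type} [Field L] [NumberField L] (j : L →+* ℂ) (F : Set Z.X.I) :
    Subgroup (L ≃ₐ[ℚ] L) where
  carrier := {σ | ∃ g : ℂ ≃+* ℂ, (∀ x, g (j x) = j (σ x)) ∧ PreservesSlopes Z F g}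
  one_mem' := ⟨1, fun _ => rfl, pres_one Z F⟩
  mul_mem' := by
    rintro σ τ ⟨g, hg, hg'⟩ ⟨h, hh, hh'⟩
    refine ⟨g * h, fun x => ?_, pres_mul Z F g h hg' hh'⟩
    change g (h (j x)) = j (σ (τ x))
    rw [hh, hg]
  inv_mem' := by
    rintro σ ⟨g, hg, hg'⟩
    refine ⟨g⁻¹, fun x => ?_, pres_inv Z F g hg'⟩
    change g.symm (j x) = j (σ⁻¹ x)
    rw [RingEquiv.symm_apply_eq, hg]
    congr 1
    exact (σ.apply_symm_apply x).symm

theorem mem_slopeField {L : Type} [Field L] [NumberField L] [IsGalois ℚ L] (j : L →+* ℂ)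
    (F : Set Z.X.I) (y : L) (hy : ∀ σ ∈ HF Z j F, σ y = y) : j y ∈ slopeField Z F := by
  constructor
  · have h1 : IsAlgebraic ℚ y := Algebra.IsAlgebraic.isAlgebraic y
    exact h1.algHom (RingHom.equivRatAlgHom L ℂ j)
  · intro g hg
    obtain ⟨σ, hσ⟩ := exists_gal j g
    rw [hσ, hy σ ⟨g, hσ, hg⟩]

/-- **The Galois theory.** -/
theorem exists_conj (F F' : Set Z.X.I)
    (hreal : ∀ x ∈ slopeField Z F, x ∈ slopeField Z F' → x.im = 0) :
    ∃ u ∈ Subgroup.closure ({g : ℂ ≃+* ℂ | PreservesSlopes Z F g} ∪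
      {g : ℂ ≃+* ℂ | PreservesSlopes Z F' g}), ∀ w, ga Z u w = cj Z w := by
  have hne : Nonempty (Z.X.prod (single (kp p))).I := ⟨Sum.inr ()⟩
  obtain ⟨L, _, _, _, _, j, hj⟩ := exists_cm (Z.X.prod (single (kp p)))
  have hZ : ∀ (i : Z.X.I) (ψ : (Z.X.factor i).E →+* ℂ), ∃ φ : (Z.X.factor i).E →+* L,
      j.comp φ = ψ := fun i ψ => hj (Sum.inl i) ψ
  obtain ⟨c, hc⟩ := exists_gal j (Complex.conjAe.toRingEquiv)
  have hc' : ∀ x, (starRingEnd ℂ) (j x) = j (c x) := hc
  -- `c` is in the group generated by the two subgroups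
  have hc1 : c ∈ HF Z j F ⊔ HF Z j F' := by
    have h1 : c ∈ (IntermediateField.fixedField (HF Z j F ⊔ HF Z j F')).fixingSubgroup := by
      rw [IntermediateField.mem_fixingSubgroup_iff]
      intro y hy
      rw [IntermediateField.mem_fixedField_iff] at hy
      have h2 : j y ∈ slopeField Z F := mem_slopeField Z j F y fun σ hσ =>
        hy σ (Subgroup.mem_sup_left hσ)
      have h3 : j y ∈ slopeField Z F' := mem_slopeField Z j F' y fun σ hσ =>
        hy σ (Subgroup.mem_sup_right hσ)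
      apply j.injective
      rw [← hc']
      exact Complex.conj_eq_iff_im.2 (hreal _ h2 h3)
    rwa [IntermediateField.fixingSubgroup_fixedField] at h1
  have key : ∀ σ ∈ HF Z j F ⊔ HF Z j F', ∃ u ∈ Subgroup.closure
      ({g : ℂ ≃+* ℂ | PreservesSlopes Z F g} ∪ {g : ℂ ≃+* ℂ | PreservesSlopes Z F' g}),
      ∀ x, u (j x) = j (σ x) := by
    intro σ hσ
    rw [Subgroup.sup_eq_closure] at hσ
    induction hσ using Subgroup.closure_induction with
    | mem σ hσ =>
      rcases hσ with ⟨g, hg, hg'⟩ | ⟨g, hg, hg'⟩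
      · exact ⟨g, Subgroup.subset_closure (Or.inl hg'), hg⟩
      · exact ⟨g, Subgroup.subset_closure (Or.inr hg'), hg⟩
    | one => exact ⟨1, Subgroup.one_mem _, fun _ => rfl⟩
    | mul σ τ _ _ h1 h2 =>
      obtain ⟨g, hg, hg'⟩ := h1
      obtain ⟨h, hh, hh'⟩ := h2
      refine ⟨g * h, Subgroup.mul_mem _ hg hh, fun x => ?_⟩
      change g (h (j x)) = j (σ (τ x))
      rw [hh', hg']
    | inv σ _ h1 =>
      obtain ⟨g, hg, hg'⟩ := h1
      refine ⟨g⁻¹, Subgroup.inv_mem _ hg, fun x => ?_⟩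
      change g.symm (j x) = j (σ⁻¹ x)
      rw [RingEquiv.symm_apply_eq, hg']
      congr 1
      exact (σ.apply_symm_apply x).symm
  obtain ⟨u, hu, hu'⟩ := key c hc1
  refine ⟨u, hu, ?_⟩
  rintro ⟨i, ψ⟩
  unfold ga cj
  congr 1
  obtain ⟨φ, rfl⟩ := hZ i ψ
  ext x
  change u (j (φ x)) = (starRingEnd ℂ) (j (φ x))
  rw [hu', hc']

theorem base_empty : IsBase Z ∅ := by
  left
  refine ⟨?_, fun i hi => absurd hi (Set.notMem_empty i)⟩
  simp

theorem tower_single (i : Z.X.I) (h : IsNeat Z i) : IT.IsTower Z {i} := by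
  have h1 : IT.IsTower Z (insert i ∅) := by
    refine IT.IsTower.step ∅ i (IT.IsTower.good ∅ (good_of_base Z ∅ (base_empty Z)))
      (Set.notMem_empty i) ((neat_iff Z i).1 h) ?_
    intro m hm hinv
    funext φ
    obtain ⟨g, hg⟩ := exists_comp φ (ComplexEmbedding.conjugate φ)
    have h1 := hinv g (fun k hk => absurd hk (Set.notMem_empty k)) φ
    rw [hg, hm φ] at h1
    change m φ = 0
    linarith
  simpa using h1

/-- The adjunction of a free factor. -/
theorem elem_step (F : Set Z.X.I) (i : Z.X.I)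
    (hnd : IsNondegenerate Z i) (hfree : IsFreeOver Z F i)
    (ih : ∀ n : Emb Z → ℤ, n ∈ RelZ Z → (∀ w, w.1 ∉ F → n w = 0) → n ∈ Elem Z) :
    ∀ n : Emb Z → ℤ, n ∈ RelZ Z → (∀ w, w.1 ∉ insert i F → n w = 0) → n ∈ Elem Z := by
  classical
  intro n hn hF
  -- the odd part is zero
  have hodd : (fun φ : (Z.X.factor i).E →+* ℂ =>
      ((n ⟨i, φ⟩ : ℤ) : ℚ) - ((n ⟨i, ComplexEmbedding.conjugate φ⟩ : ℤ) : ℚ)) = 0 := by
    refine hfree _ (fun φ => ?_) fun g hg φ => ?_
    · rw [ComplexEmbedding.involutive_conjugate]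
      ring
    · -- `n - n ∘ g` is a relation for the factor `i` alone
      have h1 : (n - fun w => n (ga Z g w)) ∈ RelZ Z :=
        (RelZ Z).sub_mem hn (relZ_ga Z n hn g)
      have h2 : ∀ w : Emb Z, w.1 ∉ ({i} : Set Z.X.I) → (n - fun w => n (ga Z g w)) w = 0 := by
        intro w hw
        rw [Pi.sub_apply]
        by_cases hwF : w.1 ∈ F
        · have h3 : ga Z g w = w := by
            obtain ⟨k, ψ⟩ := w
            unfold ga
            congr 1
            ext x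
            exact hg k hwF ψ x
          rw [h3, sub_self]
        · have h3 : w.1 ∉ insert i F := by
            rintro (h | h)
            · exact hw h
            · exact hwF h
          rw [hF w h3]
          have h4 : n (ga Z g w) = 0 := hF _ h3
          rw [h4, sub_zero]
      obtain ⟨e, c, h3, -, h4, h5⟩ := shift Z {i} _ h1 h2
      have h6 := hnd e h3 (fun w hw => h4 w hw) φ
      have h7 := h5 ⟨i, φ⟩
      have h8 := h5 ⟨i, ComplexEmbedding.conjugate φ⟩
      rw [h6, h8] at h7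
      have h9 : (n - fun w => n (ga Z g w)) ⟨i, ComplexEmbedding.conjugate φ⟩ =
          (n - fun w => n (ga Z g w)) ⟨i, φ⟩ := add_right_cancel h7
      have h10 : n ⟨i, ComplexEmbedding.conjugate φ⟩ -
          n ⟨i, (g : ℂ →+* ℂ).comp (ComplexEmbedding.conjugate φ)⟩ =
          n ⟨i, φ⟩ - n ⟨i, (g : ℂ →+* ℂ).comp φ⟩ := h9
      rw [conj_comp]
      have h11 := congrArg (fun z : ℤ => (z : ℚ)) h10
      simp only [Int.cast_sub] at h11
      linarith
  have hsym : ∀ φ, n ⟨i, ComplexEmbedding.conjugate φ⟩ = n ⟨i, φ⟩ := by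
    intro φ
    have h1 := congrFun hodd φ
    simp only [Pi.zero_apply, sub_eq_zero] at h1
    exact_mod_cast h1.symm
  set ni : Emb Z → ℤ := fun w => if w.1 = i then n w else 0 with hni
  have hnis : ∀ w, ni (cj Z w) = ni w := by
    rintro ⟨k, ψ⟩
    simp only [hni, cj]
    by_cases hk : k = i
    · subst hk
      rw [if_pos rfl, if_pos rfl]
      exact hsym ψ
    · rw [if_neg hk, if_neg hk]
  have h1 : ni ∈ Elem Z := elem_symm Z i ni (fun w hw => if_neg hw) hnis
  have h2 : n - ni ∈ Elem Z := by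
    refine ih _ ((RelZ Z).sub_mem hn (relZ_of_symm Z ni hnis)) fun w hw => ?_
    rw [Pi.sub_apply]
    by_cases hwi : w.1 = i
    · rw [hni]
      simp only [if_pos hwi, sub_self]
    · rw [hni]
      simp only [if_neg hwi, sub_zero]
      refine hF w ?_
      rintro (h | h)
      · exact hwi h
      · exact hw h
  have h3 : n = (n - ni) + ni := (sub_add_cancel n ni).symm
  rw [h3]
  exact (Elem Z).add_mem h2 h1

/-- **Relations in a merged set.** -/
theorem elem_of_merged {F : Set Z.X.I} (h : IsMerged Z F) :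
    ∀ n : Emb Z → ℤ, n ∈ RelZ Z → (∀ w, w.1 ∉ F → n w = 0) → n ∈ Elem Z := by
  classical
  induction h with
  | base S hS => exact elem_of_tower Z (IT.IsTower.good S (good_of_base Z S hS))
  | neat i hi => exact elem_of_tower Z (tower_single Z i hi)
  | union F F' _ _ hd hreal ih ih' =>
    intro n hn hF
    have h1 := part_mem Z F F' hd (exists_conj Z F F' hreal) n hn hF
    have h2 : n - part Z F n ∈ RelZ Z := (RelZ Z).sub_mem hn h1
    have h3 : part Z F n ∈ Elem Z := ih _ h1 fun w hw => if_neg hw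
    have h4 : n - part Z F n ∈ Elem Z := by
      refine ih' _ h2 fun w hw => ?_
      rw [Pi.sub_apply]
      by_cases hwF : w.1 ∈ F
      · have h5 : part Z F n w = n w := if_pos hwF
        rw [h5, sub_self]
      · have h5 : part Z F n w = 0 := if_neg hwF
        rw [h5, sub_zero]
        refine hF w ?_
        rintro (h6 | h6)
        · exact hwF h6
        · exact hw h6
    have h5 : n = (n - part Z F n) + part Z F n := (sub_add_cancel _ _).symm
    rw [h5]
    exact (Elem Z).add_mem h4 h3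
  | step F i _ _ hnd hfree ih => exact elem_step Z F i ((neat_iff Z i).1 hnd) hfree ih

theorem hasElementaryRelations_of_merged (h : IsMerged Z Set.univ) : HasElementaryRelations Z := by
  intro e he
  exact elem_of_merged Z h _ ((IT.isRel_iff Z e).1 he) fun w hw => absurd (Set.mem_univ _) hw

end basic

theorem elem_of_mergedAV {Y : RedAV p ν} (h : IsMergedAV Y) :
    ∃ Z : RedAV p ν, HasElementaryRelations Z ∧ IsPowersTimesSupersingular Z Y := by
  obtain ⟨Z, h1, h2⟩ := h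
  refine ⟨Z, hasElementaryRelations_of_merged Z h1, fun i => ?_⟩
  rcases h2 i with h3 | ⟨k, ι, s, t, h3⟩
  · exact Or.inl ((ss_iff Y i).1 h3)
  · exact Or.inr ⟨k, ι, s, t, h3⟩

theorem isAlgebraic_emb {E : Type} [Field E] [NumberField E] (φ : E →+* ℂ) (y : E) :
    IsAlgebraic ℚ (φ y) := by
  have h1 : IsAlgebraic ℚ y := Algebra.IsAlgebraic.isAlgebraic y
  exact h1.algHom (RingHom.equivRatAlgHom E ℂ φ)

/-- A factor of K3 type: the automorphisms fixing the distinguished field preserve the slopes. -/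
theorem pres_of_k3 (Z : RedAV p ν) (k : Z.X.I) (φ₀ : (Z.X.factor k).E →+* ℂ)
    (hk : IsK3Type Z k φ₀) (g : ℂ ≃+* ℂ) (hg : ∀ y, g (φ₀ y) = φ₀ y)
    (φ : (Z.X.factor k).E →+* ℂ) : slope Z k ((g : ℂ →+* ℂ).comp φ) = slope Z k φ := by
  have h0 : (g : ℂ →+* ℂ).comp φ₀ = φ₀ := by
    ext y
    exact hg y
  have h0' : (g : ℂ →+* ℂ).comp (ComplexEmbedding.conjugate φ₀) =
      ComplexEmbedding.conjugate φ₀ := by
    rw [← conj_comp, h0]
  by_cases h2 : φ = φ₀
  · rw [h2, h0]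
  · by_cases h3 : φ = ComplexEmbedding.conjugate φ₀
    · rw [h3, h0']
    · have hinj : ∀ ψ : (Z.X.factor k).E →+* ℂ, (g : ℂ →+* ℂ).comp φ =
          (g : ℂ →+* ℂ).comp ψ → φ = ψ := by
        intro ψ h
        ext y
        exact g.injective (RingHom.congr_fun h y)
      rw [hk.2 φ h2 h3]
      refine hk.2 _ (fun h => h2 (hinj φ₀ ?_)) fun h => h3 (hinj _ ?_)
      · rw [h, h0]
      · rw [h, h0']

theorem slopeField_le (Z : RedAV p ν) (F : Set Z.X.I) (K : Subfield ℂ)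
    (hK : ∀ k ∈ F, ∃ φ₁ : (Z.X.factor k).E →+* ℂ, IsK3Type Z k φ₁ ∧ ∀ x, φ₁ x ∈ K)
    (x : ℂ) (hx : x ∈ slopeField Z F) : x ∈ K := by
  have h1 : x ∈ Subfield.closure {t : ℂ | t ∈ K ∧ IsAlgebraic ℚ t} := by
    refine mem_closure _ (fun t ht => ht.2) x hx.1 fun g hg => hx.2 g ?_
    intro k hk φ
    obtain ⟨φ₁, h3, h4⟩ := hK k hk
    exact pres_of_k3 Z k φ₁ h3 g (fun y => hg _ ⟨h4 y, isAlgebraic_emb φ₁ y⟩) φ
  have h2 : Subfield.closure {t : ℂ | t ∈ K ∧ IsAlgebraic ℚ t} ≤ K :=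
    Subfield.closure_le.2 fun t ht => ht.1
  exact h2 h1

/-- The subfields on which two embeddings meet. -/
theorem real_of_ne {E E' : Type} [Field E] [Field E'] (φ₀ : E →+* ℂ) (φ₁ : E' →+* ℂ)
    (h : HasRealSubfields E) (h' : HasRealSubfields E') (hne : Set.range φ₀ ≠ Set.range φ₁)
    (x : E) (y : E') (hxy : φ₀ x = φ₁ y) : (φ₀ x).im = 0 := by
  by_cases h1 : (φ₁.fieldRange).comap φ₀ = ⊤
  · by_cases h2 : (φ₀.fieldRange).comap φ₁ = ⊤
    · exfalso
      apply hne
      apply Set.Subset.antisymm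
      · rintro t ⟨a, rfl⟩
        have h3 : a ∈ (φ₁.fieldRange).comap φ₀ := by
          rw [h1]
          exact Subfield.mem_top a
        exact h3
      · rintro t ⟨a, rfl⟩
        have h3 : a ∈ (φ₀.fieldRange).comap φ₁ := by
          rw [h2]
          exact Subfield.mem_top a
        exact h3
    · rw [hxy]
      exact h' _ h2 φ₁ y ⟨x, hxy⟩
  · exact h _ h1 φ₀ x ⟨y, hxy.symm⟩

theorem slope_criteria : SlopeCriteria := by
  intro p _ ν Z
  refine ⟨slopeField_le Z, neat_of_k3 Z, neat_of_dominant Z, ?_, ?_⟩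
  swap
  · intro F i q hF hi hss hq hdeg
    have hss' : ¬ Pool.Agent.W495.TC.IsSupersingular Z i := fun h => hss ((ss_iff Z i).2 h)
    exact IsMerged.step F i hF hi ((neat_iff Z i).2 (IT.nondegenerate_of_irreducible Z i
      (IT.irreducible_of_prime hq) hss')) (IT.free_of_prime Z F i hq hdeg)
  intro i k φ₀ φ₁ hik h0 h1 hE hE' hne
  have h2 : IsMerged Z ({i} ∪ {k}) := by
    refine IsMerged.union {i} {k} (IsMerged.neat i (neat_of_k3 Z i φ₀ h0))
      (IsMerged.neat k (neat_of_k3 Z k φ₁ h1)) (Set.disjoint_singleton.2 hik) fun x hx hx' => ?_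
    have h3 : x ∈ φ₀.fieldRange := slopeField_le Z {i} _ (by
      rintro l hl
      obtain rfl : l = i := hl
      exact ⟨φ₀, h0, fun y => ⟨y, rfl⟩⟩) x hx
    have h4 : x ∈ φ₁.fieldRange := slopeField_le Z {k} _ (by
      rintro l hl
      obtain rfl : l = k := hl
      exact ⟨φ₁, h1, fun y => ⟨y, rfl⟩⟩) x hx'
    obtain ⟨a, rfl⟩ := h3
    obtain ⟨b, hb⟩ := h4
    exact real_of_ne φ₀ φ₁ hE hE' hne a b hb.symm
  have h3 : ({i, k} : Set Z.X.I) = {i} ∪ {k} := rfl
  rw [h3]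
  exact h2

theorem tb_merged {Ω V : Type} [Field Ω] [IsAlgClosed Ω] [CharZero Ω] {T : Homology Ω V}
    (hT : IsHomology T) {X : V} (hX : Generated T (IsMergedAbelian p ν T) X) : TB T X := by
  refine tb_generated hT (fun X hX => ?_) hX
  obtain ⟨Y, C, D, g, h1, hC, hD, hX⟩ := hX
  obtain ⟨Z, h2, h3⟩ := elem_of_mergedAV h1
  exact tb_abelian hT hC (tateHolds_elem h2 h3 hC) hD hX

theorem onto_merged {Ω V : Type} [Field Ω] [IsAlgClosed Ω] [CharZero Ω] {T : Homology Ω V}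
    (hT : IsHomology T) (hW : HasWeights T) {X : V}
    (hX : Spread T (fun X => Generated T (IsMergedAbelian p ν T) X ∨ ∀ i, IsOnto T X i) X)
    (i : ℤ) : IsOnto T X i := by
  refine onto_spread hT hW (fun X h1 i => ?_) hX i
  rcases h1 with h1 | h1
  · exact ((tb_merged hT h1).iso hT i).1
  · exact h1 i

end Pool.Agent.K3h98.KT
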